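import Pool.Agent.Results.MP_464c42_nt.HeightWindows
import Pool.Agent.R482.ST.Star

/-!
# C-pairs of general type on the line without integral points of height near powers, orbits and other sequences

Let `f_n`, `n = 0, 1, 2, …`, be positive functions on `(a, ∞)`, `a ≥ 0`, such that `f_n(t) / t` is nondecreasing, and such
that the sequence `f_n(t)` has exponent of convergence at most `τ` for each `t > a`: for instance `f_n(t) = t ^ (v_n)` for
exponents `v_n ≥ 1` (`τ = 0`; all powers, the powers `t ^ (3 ^ n)` of Mills, …), the orbits `f_n(t) = g (g (⋯ g (t)))` of any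
map `g` with `g(t) > t` and `g(t) / t` nondecreasing (`τ = 0`; for instance of `t² + c`), and `f_n(t) = v_n t`.
Let `K` be a number field of degree `d`, `S` a finite set of primes and
`Δ = (1 - 1 / m_0) (0) + (1 - 1 / m_1) (1) + (1 - 1 / m_2) (∞)` on the projective line with
`σ = 1 / m_0 + 1 / m_1 + 1 / m_2 < 1`. For all `α > a` outside a set of Hausdorff dimension at most
`(min (4 σ / 7) (20 / 37) + τ) / (1 - θ)`, every `c` and all but finitely many `n` the C-pair has no `S`-integral point `x`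
over `K` whose relative height `H_K(x) = exp (d h(x))` satisfies `|H_K(x) - f_n(α)| ≤ c f_n(α) ^ θ`.
-/

set_option autoImplicit false

namespace Pool.Agent.Results.MP_464c42_nt.StarshapedHeights

open NumberField IsDedekindDomain
open HeightWindows (height recip IsIntegral count)

/-- the functions `f n` are positive on `(a, ∞)`, `a ≥ 0`, and `f n x / x` is nondecreasing there -/
def Starshaped (a : ℝ) (f : ℕ → ℝ → ℝ) : Prop :=
  0 ≤ a ∧ ∀ n : ℕ, ∀ x y : ℝ, a < x → x ≤ y → 0 < f n x ∧ f n x / x ≤ f n y / y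

/-- for each `x > a` the exponent of convergence of the sequence `f n x` is at most `τ` -/
def ExpLe (a : ℝ) (f : ℕ → ℝ → ℝ) (τ : ℝ) : Prop :=
  ∀ x : ℝ, a < x → ∀ t : ℝ, τ < t → Summable (fun n : ℕ => (f n x) ^ (-t))

/-- **Theorem.** Let `f` be starshaped functions on `(a, ∞)` of exponent of convergence at most `τ ≥ 0`, `θ < 1`, `K` a number
field of degree `d`, `S` a finite set of primes of `K` and `m_0, m_1, m_2 ∈ {1, 2, …, ∞}` with
`σ = 1 / m_0 + 1 / m_1 + 1 / m_2 < 1`. There is a set `E` of Hausdorff dimension at most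
`(min (4 σ / 7) (20 / 37) + τ) / (1 - θ)` such that for each `α > a` outside `E`, each `c` and all but finitely many `n` no
`S`-integral point `x ∈ K` of the C-pair satisfies `|exp (d h(x)) - f_n(α)| ≤ c f_n(α) ^ θ`. The functions `v_n x`, `v_n > 0`, are starshaped on `(0, ∞)`, of exponent `τ` if `v` has exponent of convergence at most
`τ`; the functions `x ^ (v_n)`, `v_n ≥ 1`, are starshaped on `(1, ∞)`, of exponent `0` if the sums of `exp (-t v_n)` converge
for `t > 0`; and the iterates of a map `g` with `g(x) > x` for `x > a` and `g(x) / x` nondecreasing are starshaped on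
`(a, ∞)`, of exponent `0`. -/
theorem result :
    (∀ (K : Type) [Field K] [NumberField K] (S : Finset (HeightOneSpectrum (𝓞 K))) (m : Fin 3 → ℕ∞) (τ θ a : ℝ)
      (f : ℕ → ℝ → ℝ), (∀ i, 1 ≤ m i) → ∑ i, recip (m i) < 1 → Starshaped a f → 0 ≤ τ → ExpLe a f τ → θ < 1 →
      ∃ E : Set ℝ, dimH E ≤ ENNReal.ofReal ((min (4 * (∑ i, recip (m i)) / 7) (20 / 37) + τ) / (1 - θ)) ∧
        ∀ α : ℝ, a < α → α ∉ E → ∀ c : ℝ, ∃ n₀ : ℕ, ∀ n : ℕ, n₀ ≤ n → ∀ x : K, IsIntegral S m x →
          c * (f n α) ^ θ < |Real.exp ((Module.finrank ℚ K : ℝ) * height x) - f n α|) ∧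
    (∀ (v : ℕ → ℝ) (τ : ℝ), (∀ n, 0 < v n) → (∀ t : ℝ, τ < t → Summable (fun n : ℕ => (v n) ^ (-t))) →
      Starshaped 0 (fun n x => v n * x) ∧ ExpLe 0 (fun n x => v n * x) τ) ∧
    (∀ v : ℕ → ℝ, (∀ n, 1 ≤ v n) → (∀ t : ℝ, 0 < t → Summable fun n : ℕ => Real.exp (-(t * v n))) →
      Starshaped 1 (fun n x => x ^ (v n)) ∧ ExpLe 1 (fun n x => x ^ (v n)) 0) ∧
    (∀ (a : ℝ) (g : ℝ → ℝ), 0 ≤ a → (∀ x y : ℝ, a < x → x ≤ y → g x / x ≤ g y / y) → (∀ x : ℝ, a < x → x < g x) →
      Starshaped a (fun n x => g^[n] x) ∧ ExpLe a (fun n x => g^[n] x) 0) := by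
  refine ⟨fun K _ _ S m τ θ a f hm hσ hf hτ hE hθ1 => ?_, Pool.Agent.R482.ST.ex_mul, Pool.Agent.R482.ST.ex_pow,
    Pool.Agent.R482.ST.ex_orbit⟩
  have hσ0 : 0 ≤ ∑ i, recip (m i) := by
    apply Finset.sum_nonneg
    intro i _
    unfold recip
    positivity
  obtain ⟨E, h2, h3⟩ := Pool.Agent.R482.ST.windows {x : K | IsIntegral S m x}
    (fun x => Real.exp ((Module.finrank ℚ K : ℝ) * height x)) hf hτ hE
    (s := min (4 * (∑ i, recip (m i)) / 7) (20 / 37)) (le_min (by positivity) (by norm_num)) hθ1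
    (count K S m hm hσ)
  refine ⟨E, h2, fun α hα hαE c => ?_⟩
  obtain ⟨n₀, hn⟩ := h3 α hα hαE c
  exact ⟨n₀, fun n hn1 x hx => hn n hn1 x hx⟩

end Pool.Agent.Results.MP_464c42_nt.StarshapedHeights
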